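import Mathlib

set_option autoImplicit false

/-! Joint orthonormal eigenbasis of a commuting family of Hermitian operators. -/

namespace Tor

open Module

universe u v

theorem joint_aux {ι : Type v} (n : ℕ) : ∀ (E : Type u) [NormedAddCommGroup E]
    [InnerProductSpace ℂ E] [FiniteDimensional ℂ E] (T : ι → E →ₗ[ℂ] E),
    (∀ i, (T i).IsSymmetric) → (∀ i j, T i ∘ₗ T j = T j ∘ₗ T i) → finrank ℂ E = n →
    ∃ b : OrthonormalBasis (Fin n) ℂ E, ∀ k i, ∃ μ : ℂ, T i (b k) = μ • b k := by
  induction n with
  | zero =>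
    intro E _ _ _ T hT hC hn
    refine ⟨(stdOrthonormalBasis ℂ E).reindex (finCongr hn), fun k => k.elim0⟩
  | succ n ih =>
    intro E _ _ _ T hT hC hn
    have : Fact (finrank ℂ E = n + 1) := ⟨hn⟩
    have : Nontrivial E := by
      apply Module.nontrivial_of_finrank_pos (R := ℂ)
      rw [hn]; omega
    have h1 : (⨆ χ : ι → ℂ, ⨅ i, End.eigenspace (T i) (χ i)) = ⊤ :=
      LinearMap.IsSymmetric.iSup_iInf_eq_top_of_commute hT (fun i j _ => hC i j)
    have h2 : ∃ χ : ι → ℂ, (⨅ i, End.eigenspace (T i) (χ i)) ≠ ⊥ := by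
      by_contra h
      push Not at h
      have : (⨆ χ : ι → ℂ, ⨅ i, End.eigenspace (T i) (χ i)) = ⊥ := by
        rw [iSup_eq_bot]; exact h
      rw [this] at h1
      exact absurd h1 bot_ne_top
    obtain ⟨χ, hχ⟩ := h2
    obtain ⟨v0, hv0, hv0'⟩ := (Submodule.ne_bot_iff _).1 hχ
    obtain ⟨v, hv, hv1⟩ : ∃ v : E, (∀ i, T i v = χ i • v) ∧ ‖v‖ = 1 := by
      refine ⟨((‖v0‖ : ℂ)⁻¹) • v0, ?_, ?_⟩
      · intro i
        have := (Submodule.mem_iInf _).1 hv0 i
        rw [End.mem_eigenspace_iff] at this
        rw [map_smul, this, smul_comm]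
      · rw [norm_smul, norm_inv, Complex.norm_real, norm_norm,
          inv_mul_cancel₀ (norm_ne_zero_iff.2 hv0')]
    have hvne : v ≠ 0 := by
      intro h; rw [h, norm_zero] at hv1; exact zero_ne_one hv1
    set F : Submodule ℂ E := (Submodule.span ℂ {v})ᗮ with hF
    have hFmem : ∀ x : E, x ∈ F ↔ inner ℂ v x = 0 := fun x =>
      Submodule.mem_orthogonal_singleton_iff_inner_right
    have hinv : ∀ i, ∀ x ∈ F, T i x ∈ F := by
      intro i x hx
      rw [hFmem] at hx ⊢
      rw [← hT i v x, hv i, inner_smul_left, hx, mul_zero]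
    have hFn : finrank ℂ F = n := Submodule.finrank_orthogonal_span_singleton hvne
    obtain ⟨b, hb⟩ := ih F (fun i => (T i).restrict (hinv i))
      (fun i => (hT i).restrict_invariant (hinv i)) (by
        intro i j
        ext x
        have := congrArg (fun f => f (x : E)) (hC i j)
        simpa using this) hFn
    set w : Fin (n + 1) → E := Fin.cons v (fun k => ((b k : F) : E)) with hw
    have hon : Orthonormal ℂ w := by
      rw [orthonormal_iff_ite]
      intro k l
      refine Fin.cases ?_ (fun k => ?_) k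
      · refine Fin.cases ?_ (fun l => ?_) l
        · simp only [hw, Fin.cons_zero, if_true]
          rw [inner_self_eq_norm_sq_to_K, hv1]
          norm_num
        · simp only [hw, Fin.cons_zero, Fin.cons_succ]
          rw [(hFmem _).1 (b l).2]
          simp [(Fin.succ_ne_zero l).symm]
      · refine Fin.cases ?_ (fun l => ?_) l
        · simp only [hw, Fin.cons_zero, Fin.cons_succ]
          rw [← inner_conj_symm, (hFmem _).1 (b k).2]
          simp
        · simp only [hw, Fin.cons_succ]
          have := orthonormal_iff_ite.1 b.orthonormal k l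
          rw [← Submodule.coe_inner, this]
          simp
    refine ⟨(basisOfOrthonormalOfCardEqFinrank hon (by simp [hn])).toOrthonormalBasis
      (by simpa using hon), ?_⟩
    intro k i
    have hk : ((basisOfOrthonormalOfCardEqFinrank hon (by simp [hn])).toOrthonormalBasis
      (by simpa using hon)) k = w k := by simp
    rw [hk]
    refine Fin.cases ?_ (fun k => ?_) k
    · exact ⟨χ i, by simpa [hw] using hv i⟩
    · obtain ⟨μ, hμ⟩ := hb k i
      refine ⟨μ, ?_⟩
      have := congrArg (fun x : F => (x : E)) hμ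
      simpa [hw] using this

open Matrix in
/-- commuting Hermitian matrices have a joint unitary diagonalisation -/
theorem joint_matrix {X : Type u} [Fintype X] [DecidableEq X] {ι : Type v} (H : ι → Matrix X X ℂ)
    (hH : ∀ i, (H i).IsHermitian) (hC : ∀ i j, H i * H j = H j * H i) :
    ∃ (U : Matrix X X ℂ) (l : X → ι → ℝ), Uᴴ * U = 1 ∧ U * Uᴴ = 1 ∧
      ∀ i, H i * U = U * Matrix.diagonal (fun k => (l k i : ℂ)) := by
  classical
  obtain ⟨b, hb⟩ := joint_aux (Fintype.card X) (EuclideanSpace ℂ X)
    (fun i => Matrix.toEuclideanLin (H i))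
    (fun i => Matrix.isSymmetric_toEuclideanLin_iff.2 (hH i))
    (by
      intro i j
      ext x
      have := congrArg (fun M => Matrix.toEuclideanLin M) (hC i j)
      simp [Matrix.toLpLin_apply, Matrix.mulVec_mulVec, hC i j])
    (by simp)
  set e := Fintype.equivFin X with he
  set v : X → EuclideanSpace ℂ X := fun k => b (e k) with hv
  have hon : ∀ k l, inner ℂ (v k) (v l) = if k = l then (1 : ℂ) else 0 := by
    intro k l
    have := orthonormal_iff_ite.1 b.orthonormal (e k) (e l)
    rw [hv]
    simp only [this, EmbeddingLike.apply_eq_iff_eq]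
  have hμ : ∀ k i, ∃ r : ℝ, Matrix.toEuclideanLin (H i) (v k) = (r : ℂ) • v k := by
    intro k i
    obtain ⟨μ, h⟩ := hb (e k) i
    refine ⟨μ.re, ?_⟩
    have hs := (Matrix.isSymmetric_toEuclideanLin_iff.2 (hH i)) (v k) (v k)
    rw [show Matrix.toEuclideanLin (H i) (v k) = μ • v k from h] at hs ⊢
    rw [inner_smul_left, inner_smul_right, hon, if_pos rfl, mul_one, mul_one] at hs
    rw [(Complex.conj_eq_iff_re.1 hs)]
  choose l hl using hμ
  refine ⟨Matrix.of fun x k => v k x, l, ?_, ?_, ?_⟩
  · ext k m
    rw [Matrix.mul_apply, Matrix.one_apply]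
    have := hon k m
    rw [EuclideanSpace.inner_eq_star_dotProduct] at this
    rw [← this, dotProduct]
    refine Finset.sum_congr rfl fun x _ => ?_
    simp [Matrix.conjTranspose_apply, mul_comm]
  · rw [mul_eq_one_comm]
    ext k m
    rw [Matrix.mul_apply, Matrix.one_apply]
    have := hon k m
    rw [EuclideanSpace.inner_eq_star_dotProduct] at this
    rw [← this, dotProduct]
    refine Finset.sum_congr rfl fun x _ => ?_
    simp [Matrix.conjTranspose_apply, mul_comm]
  · intro i
    ext x k
    have := congrArg (fun f : EuclideanSpace ℂ X => f x) (hl k i)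
    simp only [Matrix.toLpLin_apply, PiLp.smul_apply, smul_eq_mul] at this
    rw [Matrix.mul_apply, Matrix.mul_diagonal]
    simp only [Matrix.of_apply]
    rw [mul_comm (v k x), ← this]
    rfl

end Tor
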