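import Pool.Agent.Tor.Alg.SixV

set_option autoImplicit false

/-! The cubic relation of the six-vertex transfer matrix at `L = pi/3`. -/

namespace Tor

open Matrix

open scoped Kronecker

/-- basis g0, g1 | h0 | h3 | h1, h2 of (spin one) x (spin one half) -/
def S6 : Matrix (Fin 3 × Fin 2) (Fin 2 ⊕ (Unit ⊕ (Unit ⊕ Fin 2))) ℂ := Matrix.of fun p k =>
  Sum.elim (fun k => (![![![0, 0], ![1, 0]], ![![1, 0], ![0, 1]], ![![0, -1], ![0, 0]]] :
      Fin 3 → Fin 2 → Fin 2 → ℂ) p.1 p.2 k)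
    (Sum.elim (fun _ => (![![1, 0], ![0, 0], ![0, 0]] : Fin 3 → Fin 2 → ℂ) p.1 p.2)
      (Sum.elim (fun _ => (![![0, 0], ![0, 0], ![0, 1]] : Fin 3 → Fin 2 → ℂ) p.1 p.2)
        (fun k => (![![![0, 0], ![1, 0]], ![![0, 0], ![0, 1]], ![![0, 0], ![0, 0]]] :
          Fin 3 → Fin 2 → Fin 2 → ℂ) p.1 p.2 k))) k

def S6' : Matrix (Fin 2 ⊕ (Unit ⊕ (Unit ⊕ Fin 2))) (Fin 3 × Fin 2) ℂ := Matrix.of fun k p =>
  Sum.elim (fun k => (![![![0, 0], ![0, 0]], ![![1, 0], ![0, 0]], ![![0, -1], ![0, 0]]] :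
      Fin 3 → Fin 2 → Fin 2 → ℂ) p.1 p.2 k)
    (Sum.elim (fun _ => (![![1, 0], ![0, 0], ![0, 0]] : Fin 3 → Fin 2 → ℂ) p.1 p.2)
      (Sum.elim (fun _ => (![![0, 0], ![0, 0], ![0, 1]] : Fin 3 → Fin 2 → ℂ) p.1 p.2)
        (fun k => (![![![0, 0], ![1, 0]], ![![-1, 0], ![0, 1]], ![![0, 1], ![0, 0]]] :
          Fin 3 → Fin 2 → Fin 2 → ℂ) p.1 p.2 k))) k

theorem S6_mul : S6 * S6' = 1 := by
  ext ⟨i, j⟩ ⟨k, l⟩
  fin_cases i <;> fin_cases j <;> fin_cases k <;> fin_cases l <;>
    simp [S6, S6', Matrix.mul_apply, Fintype.sum_sum_type, Fin.sum_univ_two]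

theorem S6'_mul : S6' * S6 = 1 := by
  ext k l
  rcases k with k | k | k | k <;> rcases l with l | l | l | l <;> fin_cases k <;> fin_cases l <;>
    simp [S6, S6', Matrix.mul_apply, Fintype.sum_prod_type, Fin.sum_univ_two,
      Fin.sum_univ_three, Matrix.one_apply]

def Q6 (a b c : ℂ) : Bool → Bool → Matrix (Fin 2) (Unit ⊕ (Unit ⊕ Fin 2)) ℂ
  | false, false => Matrix.of ![Sum.elim (fun _ => 0) (Sum.elim (fun _ => 0) ![-(c * c), 0]),
      Sum.elim (fun _ => 0) (Sum.elim (fun _ => 0) ![0, c * c])]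
  | true, true => 0
  | false, true => Matrix.of ![Sum.elim (fun _ => -(a * c)) (Sum.elim (fun _ => 0) ![0, 0]),
      Sum.elim (fun _ => 0) (Sum.elim (fun _ => 0) ![0, 0])]
  | true, false => Matrix.of ![Sum.elim (fun _ => 0) (Sum.elim (fun _ => 0) ![0, -(c * b)]),
      Sum.elim (fun _ => 0) (Sum.elim (fun _ => c * a) ![0, 0])]

def Q6a (a b c : ℂ) : Bool → Bool → Matrix Unit (Unit ⊕ Fin 2) ℂ
  | true, false => Matrix.of fun _ => Sum.elim (fun _ => 0) ![c * (a + b), 0]
  | _, _ => 0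

def Q6b (a b c : ℂ) : Bool → Bool → Matrix Unit (Fin 2) ℂ
  | false, true => Matrix.of fun _ => ![0, c * (a + b)]
  | _, _ => 0

/-- the last three blocks -/
def R6 (a b c : ℂ) (x y : Bool) : Matrix (Unit ⊕ (Unit ⊕ Fin 2)) (Unit ⊕ (Unit ⊕ Fin 2)) ℂ :=
  fromBlocks (sc1 (a * (a + b)) x y) (Q6a a b c x y) 0
    (fromBlocks (sc1 (a * (a + b)) x y) (Q6b a b c x y) 0 ((-(a + b)) • LW (-b) (a + b) (-c) x y))

section

variable (a b c : ℂ)

theorem cub00 (hc : c * c = a * a + a * b + b * b) :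
    bx (MW a b c) (LW (-(a + b)) a c) false false * S6 =
      S6 * fromBlocks ((-a) • LW a b (-c) false false) (Q6 a b c false false) 0 (R6 a b c false false) := by
  ext ⟨i, j⟩ k
  rcases k with k | k | k | k <;> fin_cases i <;> fin_cases j <;> fin_cases k <;>
    simp [S6, bx, LW, sc1, Q6, Q6a, Q6b, R6, MW, Matrix.mul_apply, Fintype.sum_prod_type,
      Fin.sum_univ_two, Fintype.sum_sum_type, Fin.sum_univ_three, Matrix.kroneckerMap_apply] <;>
    first | ring1 | linear_combination hc | linear_combination -hc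

theorem cub11 (hc : c * c = a * a + a * b + b * b) :
    bx (MW a b c) (LW (-(a + b)) a c) true true * S6 =
      S6 * fromBlocks ((-a) • LW a b (-c) true true) (Q6 a b c true true) 0 (R6 a b c true true) := by
  ext ⟨i, j⟩ k
  rcases k with k | k | k | k <;> fin_cases i <;> fin_cases j <;> fin_cases k <;>
    simp [S6, bx, LW, sc1, Q6, Q6a, Q6b, R6, MW, Matrix.mul_apply, Fintype.sum_prod_type,
      Fin.sum_univ_two, Fintype.sum_sum_type, Fin.sum_univ_three, Matrix.kroneckerMap_apply] <;>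
    first | ring1 | linear_combination hc | linear_combination -hc

theorem cub01 (hc : c * c = a * a + a * b + b * b) :
    bx (MW a b c) (LW (-(a + b)) a c) false true * S6 =
      S6 * fromBlocks ((-a) • LW a b (-c) false true) (Q6 a b c false true) 0 (R6 a b c false true) := by
  ext ⟨i, j⟩ k
  rcases k with k | k | k | k <;> fin_cases i <;> fin_cases j <;> fin_cases k <;>
    simp [S6, bx, LW, sc1, Q6, Q6a, Q6b, R6, MW, Matrix.mul_apply, Fintype.sum_prod_type,
      Fin.sum_univ_two, Fintype.sum_sum_type, Fin.sum_univ_three, Matrix.kroneckerMap_apply] <;>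
    first | ring1 | linear_combination hc | linear_combination -hc

theorem cub10 (hc : c * c = a * a + a * b + b * b) :
    bx (MW a b c) (LW (-(a + b)) a c) true false * S6 =
      S6 * fromBlocks ((-a) • LW a b (-c) true false) (Q6 a b c true false) 0 (R6 a b c true false) := by
  ext ⟨i, j⟩ k
  rcases k with k | k | k | k <;> fin_cases i <;> fin_cases j <;> fin_cases k <;>
    simp [S6, bx, LW, sc1, Q6, Q6a, Q6b, R6, MW, Matrix.mul_apply, Fintype.sum_prod_type,
      Fin.sum_univ_two, Fintype.sum_sum_type, Fin.sum_univ_three, Matrix.kroneckerMap_apply] <;>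
    first | ring1 | linear_combination hc | linear_combination -hc

theorem cub (hc : c * c = a * a + a * b + b * b) (x y : Bool) :
    bx (MW a b c) (LW (-(a + b)) a c) x y * S6 =
      S6 * fromBlocks ((-a) • LW a b (-c) x y) (Q6 a b c x y) 0 (R6 a b c x y) := by
  cases x <;> cases y
  · exact cub00 a b c hc
  · exact cub01 a b c hc
  · exact cub10 a b c hc
  · exact cub11 a b c hc

end

theorem cub_tw (w w' : ℂ) (hw : w * w' = 1) : (tw3 w w' ⊗ₖ tw w w') * S6 =
    S6 * fromBlocks (tw w w') 0 0 (fromBlocks (Matrix.of fun _ _ : Unit => w ^ 3) 0 0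
      (fromBlocks (Matrix.of fun _ _ : Unit => w' ^ 3) 0 0 (tw w w'))) := by
  ext ⟨i, j⟩ k
  rcases k with k | k | k | k <;> fin_cases i <;> fin_cases j <;> fin_cases k <;>
    simp [S6, tw, tw3, Matrix.mul_apply, Fintype.sum_prod_type, Fin.sum_univ_two,
      Fintype.sum_sum_type, Fin.sum_univ_three, Matrix.kroneckerMap_apply] <;>
    first | ring1 | linear_combination w * hw | linear_combination w' * hw |
      linear_combination -w * hw | linear_combination -w' * hw

/-- gauge invariance -/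
theorem T6_neg (N : ℕ) (a b c w w' : ℂ) : T6 N a b (-c) w w' = T6 N a b c w w' := by
  unfold T6
  refine trans_conj N _ _ _ _ (!![1, 0; 0, -1] : Matrix (Fin 2) (Fin 2) ℂ)
    (!![1, 0; 0, -1] : Matrix (Fin 2) (Fin 2) ℂ) ?_ ?_ ?_ ?_
  · intro x y
    cases x <;> cases y <;> ext i j <;> fin_cases i <;> fin_cases j <;> simp [LW, Matrix.mul_apply]
  · ext i j
    fin_cases i <;> fin_cases j <;> simp [tw, Matrix.mul_apply]
  · ext i j
    fin_cases i <;> fin_cases j <;> simp [Matrix.mul_apply]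
  · ext i j
    fin_cases i <;> fin_cases j <;> simp [Matrix.mul_apply]

theorem T3_mul_T6 (N : ℕ) (a b c w w' : ℂ) (hc : c * c = a * a + a * b + b * b)
    (hw : w * w' = 1) :
    T3 N a b c w w' * T6 N (-(a + b)) a c w w' =
      (-a) ^ N • T6 N a b c w w' + ((w ^ 3 + w' ^ 3) * (a * (a + b)) ^ N) • 1 +
        (-(a + b)) ^ N • T6 N (-b) (a + b) c w w' := by
  have e : (fun x y => fromBlocks ((-a) • LW a b (-c) x y) (Q6 a b c x y) 0 (R6 a b c x y)) =
      (fun x y => fromBlocks ((fun x y => (-a) • LW a b (-c) x y) x y) (Q6 a b c x y) 0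
        ((fun x y => R6 a b c x y) x y)) := rfl
  rw [← T6_neg N a b c, ← T6_neg N (-b) (a + b) c]
  unfold T3 T6
  rw [trans_mul, trans_conj N _ _ _ _ S6 S6' (cub a b c hc) (cub_tw w w' hw) S6_mul S6'_mul,
    trans_blocks, trans_smul]
  unfold R6
  rw [trans_blocks, trans_blocks, trans_smul]
  have h1 := trans_scalar N (a * (a + b)) (w ^ 3)
  have h2 := trans_scalar N (a * (a + b)) (w' ^ 3)
  unfold sc1
  rw [h1, h2]
  rw [add_mul, add_smul]
  abel

/-- the cubic relation -/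
theorem T6_cubic (N : ℕ) (a b c w w' : ℂ) (hc : c * c = a * a + a * b + b * b)
    (hw : w * w' = 1) :
    T6 N a b c w w' * T6 N (-b) (a + b) c w w' * T6 N (-(a + b)) a c w w' =
      (-(a * b)) ^ N • T6 N a b c w w' + (-(b * (a + b))) ^ N • T6 N (-b) (a + b) c w w' +
        (a * (a + b)) ^ N • T6 N (-(a + b)) a c w w' +
        ((w ^ 3 + w' ^ 3) * (a * b * (a + b)) ^ N) • 1 := by
  rw [T6_fusion N a b c w w' hc hw, add_mul, Matrix.smul_mul, Matrix.smul_mul, Matrix.one_mul,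
    T3_mul_T6 N a b c w w' hc hw, smul_add, smul_add, smul_smul, smul_smul, smul_smul]
  have e1 : b ^ N * (-a) ^ N = (-(a * b)) ^ N := by rw [← mul_pow]; ring
  have e2 : b ^ N * (-(a + b)) ^ N = (-(b * (a + b))) ^ N := by rw [← mul_pow]; ring
  have e3 : b ^ N * ((w ^ 3 + w' ^ 3) * (a * (a + b)) ^ N) =
      (w ^ 3 + w' ^ 3) * (a * b * (a + b)) ^ N := by
    rw [mul_left_comm, ← mul_pow]; ring
  rw [e1, e2, e3]
  abel

end Tor
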