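import Pool.Agent.Tor.Alg.Sector

set_option autoImplicit false

/-! Polynomial form of the entries of the transfer matrix. -/

namespace Tor

open Matrix Complex Polynomial

open scoped Real

/-- `(1/2 - i kc) X + (1/2 + i kc)` -/
noncomputable def aP : ℂ[X] := C (1 / 2 - I * kc) * X + C (1 / 2 + I * kc)

/-- `(1/2 + i kc) X + (1/2 - i kc)` -/
noncomputable def bP : ℂ[X] := C (1 / 2 + I * kc) * X + C (1 / 2 - I * kc)

theorem aP_deg : aP.natDegree ≤ 1 := by
  unfold aP; compute_degree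

theorem bP_deg : bP.natDegree ≤ 1 := by
  unfold bP; compute_degree

theorem aP_c1 : aP.coeff 1 = 1 / 2 - I * kc := by
  unfold aP; simp [Polynomial.coeff_C]

theorem aP_c0 : aP.coeff 0 = 1 / 2 + I * kc := by
  unfold aP; simp

theorem bP_c1 : bP.coeff 1 = 1 / 2 + I * kc := by
  unfold bP; simp [Polynomial.coeff_C]

theorem bP_c0 : bP.coeff 0 = 1 / 2 - I * kc := by
  unfold bP; simp

/-- polynomial entries -/
noncomputable def tP {N : ℕ} (w w' : ℂ) (x y : Fin N → Bool) : ℂ[X] :=
  C ((2 * kc) ^ nd x y) * X ^ (nd x y / 2) * tR aP bP 1 (C w) (C w') x y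

theorem two_exp_fc (s : ℂ) : 2 * Complex.exp (s / 3) * fc s = Complex.exp (s / 3) ^ 2 + 1 := by
  unfold fc
  rw [Complex.cosh]
  have : Complex.exp (s / 3) * Complex.exp (-(s / 3)) = 1 := by
    rw [← Complex.exp_add]; simp
  linear_combination this

theorem two_exp_fs (s : ℂ) : 2 * Complex.exp (s / 3) * fs s = Complex.exp (s / 3) ^ 2 - 1 := by
  unfold fs
  rw [Complex.sinh]
  have : Complex.exp (s / 3) * Complex.exp (-(s / 3)) = 1 := by
    rw [← Complex.exp_add]; simp
  linear_combination -this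

theorem aP_eval (s : ℂ) : aP.eval (Complex.exp (s / 3) ^ 2) = 2 * Complex.exp (s / 3) * fa s := by
  unfold aP
  rw [fa_eq]
  simp only [eval_add, eval_mul, eval_C, eval_X]
  linear_combination (-(1 : ℂ) / 2) * two_exp_fc s + (I * kc) * two_exp_fs s

theorem bP_eval (s : ℂ) : bP.eval (Complex.exp (s / 3) ^ 2) = 2 * Complex.exp (s / 3) * fb s := by
  unfold bP
  rw [fb_eq]
  simp only [eval_add, eval_mul, eval_C, eval_X]
  linear_combination (-(1 : ℂ) / 2) * two_exp_fc s - (I * kc) * two_exp_fs s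

theorem eval_tR {N : ℕ} (w w' z : ℂ) (x y : Fin N → Bool) :
    (tR aP bP 1 (C w) (C w') x y).eval z = tR (aP.eval z) (bP.eval z) 1 w w' x y := by
  have := tR_map (Polynomial.evalRingHom z) aP bP 1 (C w) (C w') x y
  simpa using this

theorem tP_eval {N : ℕ} (w w' s : ℂ) (x y : Fin N → Bool) :
    (tP w w' x y).eval (Complex.exp (s / 3) ^ 2) =
      (2 * Complex.exp (s / 3)) ^ N * TT N w w' s x y := by
  unfold TT
  rw [T6_eq_tR, ← tR_smul, tR_c (2 * Complex.exp (s / 3) * fa s)]
  unfold tP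
  rw [eval_mul, eval_mul, eval_C, eval_pow, eval_X, eval_tR, aP_eval, bP_eval]
  by_cases h : tR (2 * Complex.exp (s / 3) * fa s) (2 * Complex.exp (s / 3) * fb s) 1 w w' x y = 0
  · rw [h]; ring
  · obtain ⟨k, hk⟩ := nd_even _ _ _ _ _ x y h
    have hk2 : nd x y / 2 = k := by omega
    rw [hk2, hk, ← two_mul, ← pow_mul, mul_pow, mul_pow, mul_pow]
    ring

theorem wR_deg : ∀ {N : ℕ} (x y : Fin N → Bool), nd x y ≤ N ∧ ∀ i j : Fin 2,
    (wR aP bP 1 x y i j).natDegree + nd x y ≤ N
  | 0, x, y => by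
      constructor
      · simp [nd]
      · intro i j
        fin_cases i <;> fin_cases j <;> simp [wR, nd]
  | N + 1, x, y => by
      obtain ⟨h1, h2⟩ := wR_deg (fun i : Fin N => x i.succ) (fun i => y i.succ)
      have h0 : (xor (x 0) (y 0)).toNat ≤ 1 := Bool.toNat_le _
      constructor
      · rw [nd_succ]; omega
      · intro i j
        rw [wR_succ, nd_succ, Matrix.mul_apply, Fin.sum_univ_two]
        have h3 : ∀ k : Fin 2, (LR aP bP 1 (x 0) (y 0) i k).natDegree +
            (xor (x 0) (y 0)).toNat ≤ 1 := by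
          intro k
          have ha := aP_deg
          have hb := bP_deg
          cases x 0 <;> cases y 0 <;> fin_cases i <;> fin_cases k <;> simp [LR, ha, hb]
        have h4 : ∀ k : Fin 2, (LR aP bP 1 (x 0) (y 0) i k *
            wR aP bP 1 (fun i => x i.succ) (fun i => y i.succ) k j).natDegree +
            ((xor (x 0) (y 0)).toNat + nd (fun i => x i.succ) (fun i => y i.succ)) ≤ N + 1 := by
          intro k
          have := Polynomial.natDegree_mul_le (p := LR aP bP 1 (x 0) (y 0) i k)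
            (q := wR aP bP 1 (fun i => x i.succ) (fun i => y i.succ) k j)
          have := h3 k
          have := h2 k j
          omega
        have := Polynomial.natDegree_add_le (LR aP bP 1 (x 0) (y 0) i 0 *
            wR aP bP 1 (fun i => x i.succ) (fun i => y i.succ) 0 j)
            (LR aP bP 1 (x 0) (y 0) i 1 *
            wR aP bP 1 (fun i => x i.succ) (fun i => y i.succ) 1 j)
        have a0 := h4 0
        have a1 := h4 1
        rcases le_max_iff.1 this with h | h <;> omega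

theorem tR_deg {N : ℕ} (w w' : ℂ) (x y : Fin N → Bool) :
    (tR aP bP 1 (C w) (C w') x y).natDegree + nd x y ≤ N := by
  obtain ⟨h1, h2⟩ := wR_deg x y
  rw [tR_eq]
  have a0 := h2 0 0
  have a1 := h2 1 1
  have b0 := Polynomial.natDegree_C_mul_le w (wR aP bP 1 x y 0 0)
  have b1 := Polynomial.natDegree_C_mul_le w' (wR aP bP 1 x y 1 1)
  have := Polynomial.natDegree_add_le (C w * wR aP bP 1 x y 0 0) (C w' * wR aP bP 1 x y 1 1)
  rcases le_max_iff.1 this with h | h <;> omega

theorem tP_deg' {N : ℕ} (w w' : ℂ) (x y : Fin N → Bool) :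
    (tP w w' x y).natDegree + (nd x y - nd x y / 2) ≤ N := by
  unfold tP
  have h1 := tR_deg w w' x y
  have h2 := Polynomial.natDegree_mul_le (p := C ((2 * kc) ^ nd x y) * X ^ (nd x y / 2))
    (q := tR aP bP 1 (C w) (C w') x y)
  have h3 := Polynomial.natDegree_C_mul_le ((2 * kc) ^ nd x y) (X ^ (nd x y / 2))
  have h4 : (X ^ (nd x y / 2) : ℂ[X]).natDegree ≤ nd x y / 2 := Polynomial.natDegree_X_pow_le _
  omega

theorem tP_deg {N : ℕ} (w w' : ℂ) (x y : Fin N → Bool) : (tP w w' x y).natDegree ≤ N := by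
  have := tP_deg' w w' x y
  omega

theorem tP_self {N : ℕ} (w w' : ℂ) (x : Fin N → Bool) : tP w w' x x =
    C w * (aP ^ (N - nt x) * bP ^ nt x) + C w' * (bP ^ (N - nt x) * aP ^ nt x) := by
  unfold tP
  rw [nd_self, tR_diag]
  simp

theorem coeff_pow_pow (p q : ℂ[X]) (hp : p.natDegree ≤ 1) (hq : q.natDegree ≤ 1) (m n : ℕ) :
    (p ^ m * q ^ n).coeff (m + n) = p.coeff 1 ^ m * q.coeff 1 ^ n := by
  have h1 : (p ^ m).natDegree ≤ m := by
    have := Polynomial.natDegree_pow_le_of_le m hp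
    omega
  have h2 : (q ^ n).natDegree ≤ n := by
    have := Polynomial.natDegree_pow_le_of_le n hq
    omega
  rw [Polynomial.coeff_mul_add_eq_of_natDegree_le h1 h2]
  have e1 := Polynomial.coeff_pow_of_natDegree_le (m := m) hp
  have e2 := Polynomial.coeff_pow_of_natDegree_le (m := n) hq
  rw [mul_one] at e1 e2
  rw [e1, e2]

/-- the coefficient of `X^N` -/
theorem tP_coeff_top {N : ℕ} (w w' : ℂ) (x y : Fin N → Bool) : (tP w w' x y).coeff N =
    if x = y then w * ((1 / 2 - I * kc) ^ (N - nt x) * (1 / 2 + I * kc) ^ nt x) +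
      w' * ((1 / 2 + I * kc) ^ (N - nt x) * (1 / 2 - I * kc) ^ nt x) else 0 := by
  by_cases h : x = y
  · subst h
    rw [if_pos rfl, tP_self]
    have hN : N - nt x + nt x = N := Nat.sub_add_cancel (nt_le x)
    have e1 := coeff_pow_pow aP bP aP_deg bP_deg (N - nt x) (nt x)
    have e2 := coeff_pow_pow bP aP bP_deg aP_deg (N - nt x) (nt x)
    rw [hN] at e1 e2
    rw [coeff_add, coeff_C_mul, coeff_C_mul, e1, e2, aP_c1, bP_c1]
  · rw [if_neg h]
    apply Polynomial.coeff_eq_zero_of_natDegree_lt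
    have h1 := tP_deg' w w' x y
    have h2 : nd x y ≠ 0 := fun h0 => h (nd_eq_zero x y h0)
    omega

/-- the constant coefficient -/
theorem tP_coeff_zero {N : ℕ} (w w' : ℂ) (x y : Fin N → Bool) : (tP w w' x y).coeff 0 =
    if x = y then w * ((1 / 2 + I * kc) ^ (N - nt x) * (1 / 2 - I * kc) ^ nt x) +
      w' * ((1 / 2 - I * kc) ^ (N - nt x) * (1 / 2 + I * kc) ^ nt x) else 0 := by
  by_cases h : x = y
  · subst h
    rw [if_pos rfl, tP_self, coeff_zero_eq_eval_zero]
    have ha : aP.eval 0 = 1 / 2 + I * kc := by rw [← coeff_zero_eq_eval_zero, aP_c0]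
    have hb : bP.eval 0 = 1 / 2 - I * kc := by rw [← coeff_zero_eq_eval_zero, bP_c0]
    simp only [eval_add, eval_mul, eval_C, eval_pow, ha, hb]
  · rw [if_neg h, coeff_zero_eq_eval_zero]
    unfold tP
    have h2 : nd x y ≠ 0 := fun h0 => h (nd_eq_zero x y h0)
    rw [eval_mul, eval_mul, eval_pow, eval_X]
    by_cases h3 : nd x y / 2 = 0
    · have h4 : nd x y = 1 := by omega
      have h5 : tR aP bP 1 (C w) (C w') x y = 0 := by
        by_contra h5
        obtain ⟨k, hk⟩ := nd_even _ _ _ _ _ x y h5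
        omega
      rw [h5]; simp
    · rw [zero_pow h3]; simp

theorem tP_ne {N : ℕ} (w w' : ℂ) (x y : Fin N → Bool) (h : nt x ≠ nt y) : tP w w' x y = 0 := by
  unfold tP
  have : tR aP bP 1 (C w) (C w') x y = 0 := by
    by_contra h5
    exact h (tR_cons _ _ _ _ _ x y h5)
  rw [this, mul_zero]

theorem TT_ne {N : ℕ} (w w' s : ℂ) (x y : Fin N → Bool) (h : nt x ≠ nt y) :
    TT N w w' s x y = 0 := by
  unfold TT
  rw [T6_eq_tR]
  by_contra h5
  exact h (tR_cons _ _ _ _ _ x y h5)

end Tor
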