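import Pool.Agent.Tor.Alg.Trig
import Pool.Agent.Tor.Alg.Joint

set_option autoImplicit false

/-! Conservation of the number of down spins, sectors, polynomial form of the entries. -/

namespace Tor

open Matrix Complex

open scoped Real

/-- number of `true`s -/
def nt {N : ℕ} (x : Fin N → Bool) : ℕ := ∑ i, (x i).toNat

/-- number of places where the words differ -/
def nd {N : ℕ} (x y : Fin N → Bool) : ℕ := ∑ i, (xor (x i) (y i)).toNat

theorem nt_succ {N : ℕ} (x : Fin (N + 1) → Bool) :
    nt x = (x 0).toNat + nt (fun i => x i.succ) := by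
  unfold nt
  rw [Fin.sum_univ_succ]

theorem nd_succ {N : ℕ} (x y : Fin (N + 1) → Bool) :
    nd x y = (xor (x 0) (y 0)).toNat + nd (fun i => x i.succ) (fun i => y i.succ) := by
  unfold nd
  rw [Fin.sum_univ_succ]

section gen

variable {R : Type*} [CommRing R]

/-- L-operators over a commutative ring -/
def LR (a b c : R) : Bool → Bool → Matrix (Fin 2) (Fin 2) R
  | false, false => !![a, 0; 0, b]
  | true, true => !![b, 0; 0, a]
  | false, true => !![0, 0; c, 0]
  | true, false => !![0, c; 0, 0]

/-- word product over a commutative ring -/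
def wR {N : ℕ} (a b c : R) (x y : Fin N → Bool) : Matrix (Fin 2) (Fin 2) R :=
  (List.ofFn fun i => LR a b c (x i) (y i)).prod

/-- entries of the transfer matrix over a commutative ring -/
def tR {N : ℕ} (a b c w w' : R) (x y : Fin N → Bool) : R :=
  trace (!![w, 0; 0, w'] * wR a b c x y)

theorem wR_succ {N : ℕ} (a b c : R) (x y : Fin (N + 1) → Bool) :
    wR a b c x y = LR a b c (x 0) (y 0) * wR a b c (fun i => x i.succ) (fun i => y i.succ) := by
  unfold wR
  rw [List.ofFn_succ, List.prod_cons]

theorem LR_cons (a b c : R) (s t : Bool) (i j : Fin 2) (h : LR a b c s t i j ≠ 0) :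
    i.val + s.toNat = j.val + t.toNat := by
  revert h
  cases s <;> cases t <;> fin_cases i <;> fin_cases j <;> simp [LR]

theorem wR_cons : ∀ {N : ℕ} (a b c : R) (x y : Fin N → Bool) (i j : Fin 2),
    wR a b c x y i j ≠ 0 → i.val + nt x = j.val + nt y
  | 0, a, b, c, x, y, i, j, h => by
      have : i = j := by
        by_contra hij
        apply h
        simp [wR, Matrix.one_apply, hij]
      simp [nt, this]
  | N + 1, a, b, c, x, y, i, j, h => by
      rw [wR_succ, Matrix.mul_apply] at h
      obtain ⟨k, _, hk⟩ := Finset.exists_ne_zero_of_sum_ne_zero h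
      have h1 := LR_cons a b c _ _ i k (left_ne_zero_of_mul hk)
      have h2 := wR_cons a b c _ _ k j (right_ne_zero_of_mul hk)
      rw [nt_succ, nt_succ]
      omega

theorem tR_eq {N : ℕ} (a b c w w' : R) (x y : Fin N → Bool) :
    tR a b c w w' x y = w * wR a b c x y 0 0 + w' * wR a b c x y 1 1 := by
  unfold tR
  rw [Matrix.trace, Fin.sum_univ_two, Matrix.diag_apply, Matrix.diag_apply, Matrix.mul_apply,
    Matrix.mul_apply, Fin.sum_univ_two, Fin.sum_univ_two]
  simp

theorem tR_cons {N : ℕ} (a b c w w' : R) (x y : Fin N → Bool) (h : tR a b c w w' x y ≠ 0) :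
    nt x = nt y := by
  rw [tR_eq] at h
  by_cases h0 : wR a b c x y 0 0 = 0
  · have h1 : wR a b c x y 1 1 ≠ 0 := by
      intro h1
      apply h
      rw [h0, h1]; ring
    have := wR_cons a b c x y 1 1 h1
    omega
  · have := wR_cons a b c x y 0 0 h0
    omega

theorem LR_c (a b c : R) (s t : Bool) :
    LR a b c s t = c ^ (xor s t).toNat • LR a b 1 s t := by
  cases s <;> cases t <;> ext i j <;> fin_cases i <;> fin_cases j <;> simp [LR]

theorem wR_c : ∀ {N : ℕ} (a b c : R) (x y : Fin N → Bool),
    wR a b c x y = c ^ nd x y • wR a b 1 x y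
  | 0, a, b, c, x, y => by simp [wR, nd]
  | N + 1, a, b, c, x, y => by
      rw [wR_succ, wR_c a b c, LR_c, wR_succ a b 1, nd_succ, Matrix.smul_mul, Matrix.mul_smul,
        smul_smul, pow_add]

theorem tR_c {N : ℕ} (a b c w w' : R) (x y : Fin N → Bool) :
    tR a b c w w' x y = c ^ nd x y * tR a b 1 w w' x y := by
  rw [tR_eq, tR_eq, wR_c]
  simp only [Matrix.smul_apply, smul_eq_mul]
  ring

theorem nd_even_aux {N : ℕ} (x y : Fin N → Bool) : (nd x y + nt x + nt y) % 2 = 0 := by
  unfold nd nt
  rw [← Finset.sum_add_distrib, ← Finset.sum_add_distrib, Finset.sum_nat_mod]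
  have : ∀ i : Fin N, ((xor (x i) (y i)).toNat + (x i).toNat + (y i).toNat) % 2 = 0 := by
    intro i
    cases x i <;> cases y i <;> rfl
  simp [this]

/-- nonzero entries have an even number of flips -/
theorem nd_even {N : ℕ} (a b c w w' : R) (x y : Fin N → Bool) (h : tR a b c w w' x y ≠ 0) :
    Even (nd x y) := by
  have h1 := tR_cons a b c w w' x y h
  have h2 := nd_even_aux x y
  rw [Nat.even_iff]
  omega

theorem nd_self {N : ℕ} (x : Fin N → Bool) : nd x x = 0 := by
  unfold nd
  simp

theorem nd_eq_zero {N : ℕ} (x y : Fin N → Bool) (h : nd x y = 0) : x = y := by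
  unfold nd at h
  rw [Finset.sum_eq_zero_iff] at h
  funext i
  have := h i (Finset.mem_univ _)
  revert this
  cases x i <;> cases y i <;> simp

theorem wR_diag : ∀ {N : ℕ} (a b c : R) (x : Fin N → Bool),
    wR a b c x x = !![a ^ (N - nt x) * b ^ nt x, 0; 0, b ^ (N - nt x) * a ^ nt x] ∧ nt x ≤ N
  | 0, a, b, c, x => by
      constructor
      · ext i j
        fin_cases i <;> fin_cases j <;> simp [wR, nt]
      · simp [nt]
  | N + 1, a, b, c, x => by
      obtain ⟨h1, h2⟩ := wR_diag a b c (fun i : Fin N => x i.succ)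
      constructor
      · rw [wR_succ, h1, nt_succ]
        cases x 0
        · have e : N + 1 - (false.toNat + nt fun i : Fin N => x i.succ) =
              (N - nt fun i : Fin N => x i.succ) + 1 := by
            simp only [Bool.toNat_false, zero_add]; omega
          rw [e]
          ext i j
          fin_cases i <;> fin_cases j <;> simp [LR, Matrix.mul_apply, Fin.sum_univ_two, pow_succ] <;>
            ring
        · have e : N + 1 - (true.toNat + nt fun i : Fin N => x i.succ) =
              (N - nt fun i : Fin N => x i.succ) := by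
            simp only [Bool.toNat_true]; omega
          rw [e]
          ext i j
          fin_cases i <;> fin_cases j <;>
            simp [LR, Matrix.mul_apply, Fin.sum_univ_two, pow_add] <;> ring
      · rw [nt_succ]
        have := Bool.toNat_le (x 0)
        omega

theorem tR_diag {N : ℕ} (a b c w w' : R) (x : Fin N → Bool) :
    tR a b c w w' x x = w * (a ^ (N - nt x) * b ^ nt x) + w' * (b ^ (N - nt x) * a ^ nt x) := by
  rw [tR_eq, (wR_diag a b c x).1]
  simp

theorem nt_le {N : ℕ} (x : Fin N → Bool) : nt x ≤ N := (wR_diag (0 : ℤ) 0 0 x).2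

theorem LR_map {S : Type*} [CommRing S] (f : R →+* S) (a b c : R) (s t : Bool) :
    (LR a b c s t).map f = LR (f a) (f b) (f c) s t := by
  cases s <;> cases t <;> ext i j <;> fin_cases i <;> fin_cases j <;> simp [LR]

theorem wR_map {S : Type*} [CommRing S] (f : R →+* S) : ∀ {N : ℕ} (a b c : R)
    (x y : Fin N → Bool), (wR a b c x y).map f = wR (f a) (f b) (f c) x y
  | 0, a, b, c, x, y => by simp [wR, Matrix.map_one]
  | N + 1, a, b, c, x, y => by
      rw [wR_succ, Matrix.map_mul, wR_map f, LR_map, ← wR_succ]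

theorem tR_map {S : Type*} [CommRing S] (f : R →+* S) {N : ℕ} (a b c w w' : R)
    (x y : Fin N → Bool) :
    f (tR a b c w w' x y) = tR (f a) (f b) (f c) (f w) (f w') x y := by
  rw [tR_eq, tR_eq, ← wR_map]
  simp

/-- homogeneity -/
theorem tR_smul {N : ℕ} (k a b c w w' : R) (x y : Fin N → Bool) :
    tR (k * a) (k * b) (k * c) w w' x y = k ^ N * tR a b c w w' x y := by
  have key : ∀ {N : ℕ} (x y : Fin N → Bool), wR (k * a) (k * b) (k * c) x y =
      k ^ N • wR a b c x y := by
    intro N
    induction N with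
    | zero => intro x y; simp [wR]
    | succ N ih =>
      intro x y
      have h : LR (k * a) (k * b) (k * c) (x 0) (y 0) = k • LR a b c (x 0) (y 0) := by
        cases x 0 <;> cases y 0 <;> ext i j <;> fin_cases i <;> fin_cases j <;> simp [LR]
      rw [wR_succ, ih, h, wR_succ, Matrix.smul_mul, Matrix.mul_smul, smul_smul, pow_succ']
  rw [tR_eq, tR_eq, key]
  simp only [Matrix.smul_apply, smul_eq_mul]
  ring

end gen

theorem T6_eq_tR (N : ℕ) (a b c w w' : ℂ) (x y : Fin N → Bool) :
    T6 N a b c w w' x y = tR a b c w w' x y := by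
  have h : LW a b c = LR a b c := by
    funext s t
    cases s <;> cases t <;> rfl
  unfold T6
  rw [trans_apply, h]
  rfl

end Tor
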