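import Pool.Agent.Tor.Alg.Trans

set_option autoImplicit false

/-! The six-vertex L-operators at `L = pi/3`: fusion and the cubic relation. -/

namespace Tor

open Matrix

open scoped Kronecker

/-- six-vertex weights: `x` is the incoming and `y` the outgoing physical spin, the matrix acts on
the auxiliary spin -/
def LW (a b c : ℂ) : Bool → Bool → Matrix (Fin 2) (Fin 2) ℂ
  | false, false => !![a, 0; 0, b]
  | true, true => !![b, 0; 0, a]
  | false, true => !![0, 0; c, 0]
  | true, false => !![0, c; 0, 0]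

/-- the twist -/
def tw (w w' : ℂ) : Matrix (Fin 2) (Fin 2) ℂ := !![w, 0; 0, w']

/-- spin one data (after division by `b`) -/
def MW (a b c : ℂ) : Bool → Bool → Matrix (Fin 3) (Fin 3) ℂ
  | false, false => !![-a, 0, 0; 0, -b, 0; 0, 0, a + b]
  | true, true => !![a + b, 0, 0; 0, -b, 0; 0, 0, -a]
  | false, true => !![0, 0, 0; -c, 0, 0; 0, -c, 0]
  | true, false => !![0, c, 0; 0, 0, c; 0, 0, 0]

/-- twist for spin one -/
def tw3 (w w' : ℂ) : Matrix (Fin 3) (Fin 3) ℂ := !![w * w, 0, 0; 0, w * w', 0; 0, 0, w' * w']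

/-- one dimensional data -/
def sc1 (k : ℂ) : Bool → Bool → Matrix Unit Unit ℂ :=
  fun x y => if x = y then (Matrix.of fun _ _ : Unit => k) else 0

def S4 : Matrix (Fin 2 × Fin 2) (Unit ⊕ Fin 3) ℂ := Matrix.of fun p k =>
  Sum.elim (fun _ => (![![0, 1], ![1, 0]] : Fin 2 → Fin 2 → ℂ) p.1 p.2)
    (fun k => (![![![1, 0, 0], ![0, 1, 0]], ![![0, 0, 0], ![0, 0, 1]]] :
      Fin 2 → Fin 2 → Fin 3 → ℂ) p.1 p.2 k) k

def S4' : Matrix (Unit ⊕ Fin 3) (Fin 2 × Fin 2) ℂ := Matrix.of fun k p =>
  Sum.elim (fun _ => (![![0, 0], ![1, 0]] : Fin 2 → Fin 2 → ℂ) p.1 p.2)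
    (fun k => (![![![1, 0, 0], ![0, 1, 0]], ![![0, -1, 0], ![0, 0, 1]]] :
      Fin 2 → Fin 2 → Fin 3 → ℂ) p.1 p.2 k) k

def Q4 (a b c : ℂ) : Bool → Bool → Matrix Unit (Fin 3) ℂ
  | false, false => Matrix.of fun _ => ![0, c * c, 0]
  | true, true => 0
  | false, true => Matrix.of fun _ => ![c * (a + b), 0, 0]
  | true, false => Matrix.of fun _ => ![0, 0, c * a]

theorem S4_mul : S4 * S4' = 1 := by
  ext ⟨i, j⟩ ⟨k, l⟩
  fin_cases i <;> fin_cases j <;> fin_cases k <;> fin_cases l <;>
    simp [S4, S4', Matrix.mul_apply, Fintype.sum_sum_type, Fin.sum_univ_three]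

theorem S4'_mul : S4' * S4 = 1 := by
  ext k l
  rcases k with k | k <;> rcases l with l | l <;> fin_cases k <;> fin_cases l <;>
    simp [S4, S4', Matrix.mul_apply, Fintype.sum_prod_type, Fin.sum_univ_two]

section

variable (a b c : ℂ)

theorem fus00 (hc : c * c = a * a + a * b + b * b) :
    bx (LW a b c) (LW (-b) (a + b) c) false false * S4 =
      S4 * fromBlocks (sc1 (a * (a + b)) false false) (Q4 a b c false false) 0
        (b • MW a b c false false) := by
  ext ⟨i, j⟩ k
  rcases k with k | k <;> fin_cases i <;> fin_cases j <;> fin_cases k <;>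
    simp [S4, bx, LW, sc1, Q4, MW, Matrix.mul_apply, Fintype.sum_prod_type, Fin.sum_univ_two,
      Fintype.sum_sum_type, Fin.sum_univ_three, Matrix.kroneckerMap_apply] <;>
    first | ring1 | linear_combination hc | linear_combination -hc

theorem fus11 (hc : c * c = a * a + a * b + b * b) :
    bx (LW a b c) (LW (-b) (a + b) c) true true * S4 =
      S4 * fromBlocks (sc1 (a * (a + b)) true true) (Q4 a b c true true) 0
        (b • MW a b c true true) := by
  ext ⟨i, j⟩ k
  rcases k with k | k <;> fin_cases i <;> fin_cases j <;> fin_cases k <;>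
    simp [S4, bx, LW, sc1, Q4, MW, Matrix.mul_apply, Fintype.sum_prod_type, Fin.sum_univ_two,
      Fintype.sum_sum_type, Fin.sum_univ_three, Matrix.kroneckerMap_apply] <;>
    first | ring1 | linear_combination hc | linear_combination -hc

theorem fus01 (hc : c * c = a * a + a * b + b * b) :
    bx (LW a b c) (LW (-b) (a + b) c) false true * S4 =
      S4 * fromBlocks (sc1 (a * (a + b)) false true) (Q4 a b c false true) 0
        (b • MW a b c false true) := by
  ext ⟨i, j⟩ k
  rcases k with k | k <;> fin_cases i <;> fin_cases j <;> fin_cases k <;>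
    simp [S4, bx, LW, sc1, Q4, MW, Matrix.mul_apply, Fintype.sum_prod_type, Fin.sum_univ_two,
      Fintype.sum_sum_type, Fin.sum_univ_three, Matrix.kroneckerMap_apply] <;>
    first | ring1 | linear_combination hc | linear_combination -hc

theorem fus10 (hc : c * c = a * a + a * b + b * b) :
    bx (LW a b c) (LW (-b) (a + b) c) true false * S4 =
      S4 * fromBlocks (sc1 (a * (a + b)) true false) (Q4 a b c true false) 0
        (b • MW a b c true false) := by
  ext ⟨i, j⟩ k
  rcases k with k | k <;> fin_cases i <;> fin_cases j <;> fin_cases k <;>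
    simp [S4, bx, LW, sc1, Q4, MW, Matrix.mul_apply, Fintype.sum_prod_type, Fin.sum_univ_two,
      Fintype.sum_sum_type, Fin.sum_univ_three, Matrix.kroneckerMap_apply] <;>
    first | ring1 | linear_combination hc | linear_combination -hc

theorem fus (hc : c * c = a * a + a * b + b * b) (x y : Bool) :
    bx (LW a b c) (LW (-b) (a + b) c) x y * S4 =
      S4 * fromBlocks (sc1 (a * (a + b)) x y) (Q4 a b c x y) 0 (b • MW a b c x y) := by
  cases x <;> cases y
  · exact fus00 a b c hc
  · exact fus01 a b c hc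
  · exact fus10 a b c hc
  · exact fus11 a b c hc

end

theorem fus_tw (w w' : ℂ) : (tw w w' ⊗ₖ tw w w') * S4 =
    S4 * fromBlocks (Matrix.of fun _ _ : Unit => w * w') 0 0 (tw3 w w') := by
  ext ⟨i, j⟩ k
  rcases k with k | k <;> fin_cases i <;> fin_cases j <;> fin_cases k <;>
    simp [S4, tw, tw3, Matrix.mul_apply, Fintype.sum_prod_type, Fin.sum_univ_two,
      Fintype.sum_sum_type, Fin.sum_univ_three, Matrix.kroneckerMap_apply] <;> ring1

/-- the six-vertex transfer matrix -/
noncomputable def T6 (N : ℕ) (a b c w w' : ℂ) : Matrix (Fin N → Bool) (Fin N → Bool) ℂ :=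
  trans N (LW a b c) (tw w w')

/-- the spin one transfer matrix, divided by `b ^ N` -/
noncomputable def T3 (N : ℕ) (a b c w w' : ℂ) : Matrix (Fin N → Bool) (Fin N → Bool) ℂ :=
  trans N (MW a b c) (tw3 w w')

theorem T6_fusion (N : ℕ) (a b c w w' : ℂ) (hc : c * c = a * a + a * b + b * b)
    (hw : w * w' = 1) :
    T6 N a b c w w' * T6 N (-b) (a + b) c w w' =
      (a * (a + b)) ^ N • 1 + b ^ N • T3 N a b c w w' := by
  unfold T6 T3
  rw [trans_mul, trans_conj N _ _ _ _ S4 S4' (fus a b c hc) (fus_tw w w') S4_mul S4'_mul,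
    trans_blocks, trans_smul]
  congr 1
  have := trans_scalar N (a * (a + b)) (w * w')
  rw [hw, one_mul] at this
  rw [hw]
  exact this

end Tor
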