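import Mathlib

set_option autoImplicit false

/-! Transfer matrices as traces of products along a word: generic lemmas. -/

namespace Tor

open Matrix

open scoped Kronecker

variable {m n : Type*} [Fintype m] [DecidableEq m] [Fintype n] [DecidableEq n]

/-- the product of the matrices `A (x i) (y i)` along a word -/
noncomputable def wprod (A : Bool → Bool → Matrix m m ℂ) {N : ℕ} (x y : Fin N → Bool) :
    Matrix m m ℂ :=
  (List.ofFn fun i => A (x i) (y i)).prod

/-- the transfer matrix with auxiliary space `m` and twist `D` -/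
noncomputable def trans (N : ℕ) (A : Bool → Bool → Matrix m m ℂ) (D : Matrix m m ℂ) :
    Matrix (Fin N → Bool) (Fin N → Bool) ℂ :=
  Matrix.of fun x y => trace (D * wprod A x y)

theorem trans_apply (N : ℕ) (A : Bool → Bool → Matrix m m ℂ) (D : Matrix m m ℂ)
    (x y : Fin N → Bool) : trans N A D x y = trace (D * wprod A x y) := rfl

/-- composition in the physical space, Kronecker product in the auxiliary space -/
noncomputable def bx (A : Bool → Bool → Matrix m m ℂ) (B : Bool → Bool → Matrix n n ℂ) :
    Bool → Bool → Matrix (m × n) (m × n) ℂ :=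
  fun x z => ∑ y : Bool, A x y ⊗ₖ B y z

theorem sum_ofFn_prod {R : Type*} [Semiring R] : ∀ {N : ℕ} (F : Fin N → Bool → R),
    ∑ y : Fin N → Bool, (List.ofFn fun i => F i (y i)).prod =
      (List.ofFn fun i => ∑ b : Bool, F i b).prod
  | 0, F => by simp
  | N + 1, F => by
      rw [List.ofFn_succ, List.prod_cons, ← sum_ofFn_prod (fun i => F i.succ)]
      rw [← (Fin.consEquiv (fun _ : Fin (N + 1) => Bool)).sum_comp, Fintype.sum_prod_type,
        Finset.sum_mul]
      refine Finset.sum_congr rfl fun b _ => ?_
      rw [Finset.mul_sum]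
      refine Finset.sum_congr rfl fun y _ => ?_
      simp [List.ofFn_succ, Fin.consEquiv]

theorem ofFn_prod_kron : ∀ {N : ℕ} (A : Fin N → Matrix m m ℂ) (B : Fin N → Matrix n n ℂ),
    (List.ofFn A).prod ⊗ₖ (List.ofFn B).prod = (List.ofFn fun i => A i ⊗ₖ B i).prod
  | 0, A, B => by simp
  | N + 1, A, B => by
      simp only [List.ofFn_succ, List.prod_cons]
      rw [← ofFn_prod_kron (fun i => A i.succ) (fun i => B i.succ), Matrix.mul_kronecker_mul]

theorem trans_mul (N : ℕ) (A : Bool → Bool → Matrix m m ℂ) (B : Bool → Bool → Matrix n n ℂ)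
    (D : Matrix m m ℂ) (E : Matrix n n ℂ) :
    trans N A D * trans N B E = trans N (bx A B) (D ⊗ₖ E) := by
  ext x z
  rw [Matrix.mul_apply]
  simp only [trans_apply]
  have h1 : ∀ y : Fin N → Bool, trace (D * wprod A x y) * trace (E * wprod B y z) =
      trace ((D ⊗ₖ E) * (List.ofFn fun i => A (x i) (y i) ⊗ₖ B (y i) (z i)).prod) := by
    intro y
    rw [← Matrix.trace_kronecker, Matrix.mul_kronecker_mul]
    unfold wprod
    rw [ofFn_prod_kron]
  simp only [h1]
  rw [← Matrix.trace_sum, ← Matrix.mul_sum,
    sum_ofFn_prod (fun i b => A (x i) b ⊗ₖ B b (z i))]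
  rfl

/-- intertwined data give the same transfer matrix -/
theorem wprod_conj (A : Bool → Bool → Matrix m m ℂ) (B : Bool → Bool → Matrix n n ℂ)
    (S : Matrix m n ℂ) (h : ∀ x y, A x y * S = S * B x y) :
    ∀ {N : ℕ} (x y : Fin N → Bool), wprod A x y * S = S * wprod B x y
  | 0, x, y => by simp [wprod]
  | N + 1, x, y => by
      have := wprod_conj A B S h (fun i => x i.succ) (fun i => y i.succ)
      unfold wprod at this ⊢
      rw [List.ofFn_succ, List.prod_cons, List.ofFn_succ, List.prod_cons, Matrix.mul_assoc, this,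
        ← Matrix.mul_assoc, h, Matrix.mul_assoc]

theorem trans_conj (N : ℕ) (A : Bool → Bool → Matrix m m ℂ) (B : Bool → Bool → Matrix n n ℂ)
    (D : Matrix m m ℂ) (E : Matrix n n ℂ) (S : Matrix m n ℂ) (S' : Matrix n m ℂ)
    (h : ∀ x y, A x y * S = S * B x y) (hD : D * S = S * E) (h1 : S * S' = 1)
    (h2 : S' * S = 1) : trans N A D = trans N B E := by
  ext x y
  rw [trans_apply, trans_apply]
  have h3 : D * wprod A x y * S = S * (E * wprod B x y) := by
    rw [Matrix.mul_assoc, wprod_conj A B S h, ← Matrix.mul_assoc, hD, Matrix.mul_assoc]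
  calc trace (D * wprod A x y) = trace (D * wprod A x y * S * S') := by
        rw [Matrix.mul_assoc _ S, h1, Matrix.mul_one]
    _ = trace (S * (E * wprod B x y) * S') := by rw [h3]
    _ = trace (E * wprod B x y) := by
        rw [Matrix.trace_mul_comm, ← Matrix.mul_assoc, h2, Matrix.one_mul]

/-- block upper triangular data: the trace splits -/
theorem wprod_blocks (P : Bool → Bool → Matrix m m ℂ) (Q : Bool → Bool → Matrix m n ℂ)
    (R : Bool → Bool → Matrix n n ℂ) :
    ∀ {N : ℕ} (x y : Fin N → Bool), ∃ X : Matrix m n ℂ,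
      wprod (fun x y => fromBlocks (P x y) (Q x y) 0 (R x y)) x y =
        fromBlocks (wprod P x y) X 0 (wprod R x y)
  | 0, x, y => ⟨0, by simp [wprod]⟩
  | N + 1, x, y => by
      obtain ⟨X, hX⟩ := wprod_blocks P Q R (fun i => x i.succ) (fun i => y i.succ)
      unfold wprod at hX ⊢
      refine ⟨P (x 0) (y 0) * X + Q (x 0) (y 0) *
        (List.ofFn fun i : Fin N => R (x i.succ) (y i.succ)).prod, ?_⟩
      rw [List.ofFn_succ, List.prod_cons, hX, fromBlocks_multiply]
      simp [List.ofFn_succ]

theorem trans_blocks (N : ℕ) (P : Bool → Bool → Matrix m m ℂ) (Q : Bool → Bool → Matrix m n ℂ)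
    (R : Bool → Bool → Matrix n n ℂ) (D : Matrix m m ℂ) (X : Matrix m n ℂ) (E : Matrix n n ℂ) :
    trans N (fun x y => fromBlocks (P x y) (Q x y) 0 (R x y)) (fromBlocks D X 0 E) =
      trans N P D + trans N R E := by
  ext x y
  obtain ⟨Y, hY⟩ := wprod_blocks P Q R x y
  rw [Matrix.add_apply, trans_apply, trans_apply, trans_apply, hY, fromBlocks_multiply]
  simp [Matrix.trace, Fintype.sum_sum_type]

/-- scalar factors -/
theorem wprod_smul (c : ℂ) (A : Bool → Bool → Matrix m m ℂ) :
    ∀ {N : ℕ} (x y : Fin N → Bool), wprod (fun x y => c • A x y) x y = c ^ N • wprod A x y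
  | 0, x, y => by simp [wprod]
  | N + 1, x, y => by
      have := wprod_smul c A (fun i => x i.succ) (fun i => y i.succ)
      unfold wprod at this ⊢
      rw [List.ofFn_succ, List.prod_cons, this, List.ofFn_succ, List.prod_cons]
      rw [Matrix.smul_mul, Matrix.mul_smul, smul_smul, pow_succ, mul_comm]

theorem trans_smul (N : ℕ) (c : ℂ) (A : Bool → Bool → Matrix m m ℂ) (D : Matrix m m ℂ) :
    trans N (fun x y => c • A x y) D = c ^ N • trans N A D := by
  ext x y
  rw [Matrix.smul_apply, trans_apply, trans_apply, wprod_smul, Matrix.mul_smul, trace_smul]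

/-- one dimensional auxiliary space acting by a scalar -/
theorem trans_scalar (N : ℕ) (c d : ℂ) :
    trans N (fun x y => if x = y then (Matrix.of fun _ _ : Unit => c) else 0)
      (Matrix.of fun _ _ : Unit => d) = (d * c ^ N) • (1 : Matrix (Fin N → Bool) (Fin N → Bool) ℂ) := by
  ext x y
  rw [trans_apply, Matrix.smul_apply]
  have key : ∀ {N : ℕ} (x y : Fin N → Bool),
      wprod (fun x y => if x = y then (Matrix.of fun _ _ : Unit => c) else 0) x y =
        if x = y then (Matrix.of fun _ _ : Unit => c ^ N) else 0 := by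
    intro N
    induction N with
    | zero =>
      intro x y
      have : x = y := Subsingleton.elim _ _
      simp only [wprod, List.ofFn_zero, List.prod_nil, this, if_true, pow_zero]
      ext i j
      simp
    | succ N ih =>
      intro x y
      have := ih (fun i => x i.succ) (fun i => y i.succ)
      unfold wprod at this ⊢
      rw [List.ofFn_succ, List.prod_cons, this]
      beta_reduce
      by_cases h0 : x 0 = y 0
      · by_cases h1 : (fun i : Fin N => x i.succ) = fun i => y i.succ
        · have : x = y := by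
            funext i
            refine Fin.cases h0 (fun i => congrFun h1 i) i
          rw [if_pos h0, if_pos h1, if_pos this]
          ext i j
          simp [Matrix.mul_apply, pow_succ, mul_comm]
        · have : x ≠ y := fun h => h1 (by rw [h])
          rw [if_neg h1, if_neg this, Matrix.mul_zero]
      · have : x ≠ y := fun h => h0 (by rw [h])
        rw [if_neg h0, if_neg this, Matrix.zero_mul]
  rw [key]
  by_cases h : x = y
  · subst h
    simp [Matrix.trace, Matrix.mul_apply]
  · simp [h]

end Tor
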