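import Pool.Agent.Tor.Alg.SixV

set_option autoImplicit false

/-! The Yang-Baxter equation and commutation of the six-vertex transfer matrices. -/

namespace Tor

open Matrix

open scoped Kronecker

/-- the R-matrix (all entries multiplied by `c`) -/
def RX (r p q : ℂ) : Matrix (Fin 2 × Fin 2) (Fin 2 × Fin 2) ℂ := Matrix.of fun k l =>
  (![![![![r, 0], ![0, 0]], ![![0, p], ![q, 0]]], ![![![0, q], ![p, 0]], ![![0, 0], ![0, r]]]] :
    Fin 2 → Fin 2 → Fin 2 → Fin 2 → ℂ) k.1 k.2 l.1 l.2

theorem RX_mul (r p q r' p' q' : ℂ) (h1 : r * r' = 1) (h2 : p * p' + q * q' = 1)
    (h3 : p * q' + q * p' = 0) : RX r p q * RX r' p' q' = 1 := by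
  ext ⟨i, j⟩ ⟨k, l⟩
  fin_cases i <;> fin_cases j <;> fin_cases k <;> fin_cases l <;>
    simp [RX, Matrix.mul_apply, Fintype.sum_prod_type, Fin.sum_univ_two] <;>
    first | exact h1 | exact h2 | exact h3 | (rw [← h2]; ring1) | (rw [← h3]; ring1)

section

variable (a b a' b' c : ℂ)

theorem ybe00 (hc : c * c = a * a + a * b + b * b) (hc' : c * c = a' * a' + a' * b' + b' * b') :
    bx (LW a' b' c) (LW a b c) false false * RX (a * a' + a * b' + b * b') (c * c) (a' * b - a * b') =
      RX (a * a' + a * b' + b * b') (c * c) (a' * b - a * b') *
        bx (LW a b c) (LW a' b' c) false false := by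
  ext ⟨i, j⟩ ⟨k, l⟩
  fin_cases i <;> fin_cases j <;> fin_cases k <;> fin_cases l <;>
    simp [RX, bx, LW, Matrix.mul_apply, Fintype.sum_prod_type, Fin.sum_univ_two,
      Matrix.kroneckerMap_apply] <;>
    first
      | ring1
      | linear_combination (c * (a' + b')) * hc
      | linear_combination -((c * (a' + b'))) * hc
      | linear_combination (c * (a + b)) * hc'
      | linear_combination -((c * (a + b))) * hc'
      | linear_combination (c * b') * hc
      | linear_combination -((c * b')) * hc
      | linear_combination (c * a') * hc
      | linear_combination -((c * a')) * hc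
      | linear_combination (c * b) * hc'
      | linear_combination -((c * b)) * hc'
      | linear_combination (c * a) * hc'
      | linear_combination -((c * a)) * hc'
      | linear_combination (c * a') * hc + (c * a) * hc'
      | linear_combination (c * a') * hc - (c * a) * hc'
      | linear_combination -(c * a') * hc + (c * a) * hc'
      | linear_combination -(c * a') * hc - (c * a) * hc'
      | linear_combination (c * b') * hc + (c * b) * hc'
      | linear_combination (c * b') * hc - (c * b) * hc'
      | linear_combination -(c * b') * hc + (c * b) * hc'
      | linear_combination -(c * b') * hc - (c * b) * hc'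
      | linear_combination (c * a') * hc + (c * b) * hc'
      | linear_combination (c * a') * hc - (c * b) * hc'
      | linear_combination -(c * a') * hc + (c * b) * hc'
      | linear_combination -(c * a') * hc - (c * b) * hc'
      | linear_combination (c * b') * hc + (c * a) * hc'
      | linear_combination (c * b') * hc - (c * a) * hc'
      | linear_combination -(c * b') * hc + (c * a) * hc'
      | linear_combination -(c * b') * hc - (c * a) * hc'

theorem ybe11 (hc : c * c = a * a + a * b + b * b) (hc' : c * c = a' * a' + a' * b' + b' * b') :
    bx (LW a' b' c) (LW a b c) true true * RX (a * a' + a * b' + b * b') (c * c) (a' * b - a * b') =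
      RX (a * a' + a * b' + b * b') (c * c) (a' * b - a * b') *
        bx (LW a b c) (LW a' b' c) true true := by
  ext ⟨i, j⟩ ⟨k, l⟩
  fin_cases i <;> fin_cases j <;> fin_cases k <;> fin_cases l <;>
    simp [RX, bx, LW, Matrix.mul_apply, Fintype.sum_prod_type, Fin.sum_univ_two,
      Matrix.kroneckerMap_apply] <;>
    first
      | ring1
      | linear_combination (c * (a' + b')) * hc
      | linear_combination -((c * (a' + b'))) * hc
      | linear_combination (c * (a + b)) * hc'
      | linear_combination -((c * (a + b))) * hc'
      | linear_combination (c * b') * hc
      | linear_combination -((c * b')) * hc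
      | linear_combination (c * a') * hc
      | linear_combination -((c * a')) * hc
      | linear_combination (c * b) * hc'
      | linear_combination -((c * b)) * hc'
      | linear_combination (c * a) * hc'
      | linear_combination -((c * a)) * hc'
      | linear_combination (c * a') * hc + (c * a) * hc'
      | linear_combination (c * a') * hc - (c * a) * hc'
      | linear_combination -(c * a') * hc + (c * a) * hc'
      | linear_combination -(c * a') * hc - (c * a) * hc'
      | linear_combination (c * b') * hc + (c * b) * hc'
      | linear_combination (c * b') * hc - (c * b) * hc'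
      | linear_combination -(c * b') * hc + (c * b) * hc'
      | linear_combination -(c * b') * hc - (c * b) * hc'
      | linear_combination (c * a') * hc + (c * b) * hc'
      | linear_combination (c * a') * hc - (c * b) * hc'
      | linear_combination -(c * a') * hc + (c * b) * hc'
      | linear_combination -(c * a') * hc - (c * b) * hc'
      | linear_combination (c * b') * hc + (c * a) * hc'
      | linear_combination (c * b') * hc - (c * a) * hc'
      | linear_combination -(c * b') * hc + (c * a) * hc'
      | linear_combination -(c * b') * hc - (c * a) * hc'

theorem ybe01 (hc : c * c = a * a + a * b + b * b) (hc' : c * c = a' * a' + a' * b' + b' * b') :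
    bx (LW a' b' c) (LW a b c) false true * RX (a * a' + a * b' + b * b') (c * c) (a' * b - a * b') =
      RX (a * a' + a * b' + b * b') (c * c) (a' * b - a * b') *
        bx (LW a b c) (LW a' b' c) false true := by
  ext ⟨i, j⟩ ⟨k, l⟩
  fin_cases i <;> fin_cases j <;> fin_cases k <;> fin_cases l <;>
    simp [RX, bx, LW, Matrix.mul_apply, Fintype.sum_prod_type, Fin.sum_univ_two,
      Matrix.kroneckerMap_apply] <;>
    first
      | ring1
      | linear_combination (c * (a' + b')) * hc
      | linear_combination -((c * (a' + b'))) * hc
      | linear_combination (c * (a + b)) * hc'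
      | linear_combination -((c * (a + b))) * hc'
      | linear_combination (c * b') * hc
      | linear_combination -((c * b')) * hc
      | linear_combination (c * a') * hc
      | linear_combination -((c * a')) * hc
      | linear_combination (c * b) * hc'
      | linear_combination -((c * b)) * hc'
      | linear_combination (c * a) * hc'
      | linear_combination -((c * a)) * hc'
      | linear_combination (c * a') * hc + (c * a) * hc'
      | linear_combination (c * a') * hc - (c * a) * hc'
      | linear_combination -(c * a') * hc + (c * a) * hc'
      | linear_combination -(c * a') * hc - (c * a) * hc'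
      | linear_combination (c * b') * hc + (c * b) * hc'
      | linear_combination (c * b') * hc - (c * b) * hc'
      | linear_combination -(c * b') * hc + (c * b) * hc'
      | linear_combination -(c * b') * hc - (c * b) * hc'
      | linear_combination (c * a') * hc + (c * b) * hc'
      | linear_combination (c * a') * hc - (c * b) * hc'
      | linear_combination -(c * a') * hc + (c * b) * hc'
      | linear_combination -(c * a') * hc - (c * b) * hc'
      | linear_combination (c * b') * hc + (c * a) * hc'
      | linear_combination (c * b') * hc - (c * a) * hc'
      | linear_combination -(c * b') * hc + (c * a) * hc'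
      | linear_combination -(c * b') * hc - (c * a) * hc'

theorem ybe10 (hc : c * c = a * a + a * b + b * b) (hc' : c * c = a' * a' + a' * b' + b' * b') :
    bx (LW a' b' c) (LW a b c) true false * RX (a * a' + a * b' + b * b') (c * c) (a' * b - a * b') =
      RX (a * a' + a * b' + b * b') (c * c) (a' * b - a * b') *
        bx (LW a b c) (LW a' b' c) true false := by
  ext ⟨i, j⟩ ⟨k, l⟩
  fin_cases i <;> fin_cases j <;> fin_cases k <;> fin_cases l <;>
    simp [RX, bx, LW, Matrix.mul_apply, Fintype.sum_prod_type, Fin.sum_univ_two,
      Matrix.kroneckerMap_apply] <;>
    first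
      | ring1
      | linear_combination (c * (a' + b')) * hc
      | linear_combination -((c * (a' + b'))) * hc
      | linear_combination (c * (a + b)) * hc'
      | linear_combination -((c * (a + b))) * hc'
      | linear_combination (c * b') * hc
      | linear_combination -((c * b')) * hc
      | linear_combination (c * a') * hc
      | linear_combination -((c * a')) * hc
      | linear_combination (c * b) * hc'
      | linear_combination -((c * b)) * hc'
      | linear_combination (c * a) * hc'
      | linear_combination -((c * a)) * hc'
      | linear_combination (c * a') * hc + (c * a) * hc'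
      | linear_combination (c * a') * hc - (c * a) * hc'
      | linear_combination -(c * a') * hc + (c * a) * hc'
      | linear_combination -(c * a') * hc - (c * a) * hc'
      | linear_combination (c * b') * hc + (c * b) * hc'
      | linear_combination (c * b') * hc - (c * b) * hc'
      | linear_combination -(c * b') * hc + (c * b) * hc'
      | linear_combination -(c * b') * hc - (c * b) * hc'
      | linear_combination (c * a') * hc + (c * b) * hc'
      | linear_combination (c * a') * hc - (c * b) * hc'
      | linear_combination -(c * a') * hc + (c * b) * hc'
      | linear_combination -(c * a') * hc - (c * b) * hc'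
      | linear_combination (c * b') * hc + (c * a) * hc'
      | linear_combination (c * b') * hc - (c * a) * hc'
      | linear_combination -(c * b') * hc + (c * a) * hc'
      | linear_combination -(c * b') * hc - (c * a) * hc'

theorem ybe (hc : c * c = a * a + a * b + b * b) (hc' : c * c = a' * a' + a' * b' + b' * b')
    (x y : Bool) :
    bx (LW a' b' c) (LW a b c) x y * RX (a * a' + a * b' + b * b') (c * c) (a' * b - a * b') =
      RX (a * a' + a * b' + b * b') (c * c) (a' * b - a * b') *
        bx (LW a b c) (LW a' b' c) x y := by
  cases x <;> cases y
  · exact ybe00 a b a' b' c hc hc'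
  · exact ybe01 a b a' b' c hc hc'
  · exact ybe10 a b a' b' c hc hc'
  · exact ybe11 a b a' b' c hc hc'

end

theorem ybe_tw (r p q w w' : ℂ) : (tw w w' ⊗ₖ tw w w') * RX r p q =
    RX r p q * (tw w w' ⊗ₖ tw w w') := by
  ext ⟨i, j⟩ ⟨k, l⟩
  fin_cases i <;> fin_cases j <;> fin_cases k <;> fin_cases l <;>
    simp [RX, tw, Matrix.mul_apply, Fintype.sum_prod_type, Fin.sum_univ_two,
      Matrix.kroneckerMap_apply] <;> ring1

/-- commutation of transfer matrices -/
theorem T6_comm (N : ℕ) (a b a' b' c w w' : ℂ) (hc : c * c = a * a + a * b + b * b)
    (hc' : c * c = a' * a' + a' * b' + b' * b') (h1 : a * a' + a * b' + b * b' ≠ 0)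
    (h2 : a * a' + a' * b + b * b' ≠ 0) :
    T6 N a' b' c w w' * T6 N a b c w w' = T6 N a b c w w' * T6 N a' b' c w w' := by
  unfold T6
  set r := a * a' + a * b' + b * b' with hr
  set r2 := a * a' + a' * b + b * b' with hr2
  have key : (c * c) * (c * c) - (a' * b - a * b') * (a' * b - a * b') = r * r2 := by
    rw [hr, hr2]
    linear_combination (c * c) * hc' + (a' * a' + a' * b' + b' * b') * hc
  rw [trans_mul, trans_mul]
  refine trans_conj N _ _ _ _ (RX r (c * c) (a' * b - a * b'))
    (RX r⁻¹ (c * c / (r * r2)) (-(a' * b - a * b') / (r * r2)))
    (ybe a b a' b' c hc hc') (ybe_tw _ _ _ _ _) ?_ ?_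
  · refine RX_mul _ _ _ _ _ _ (mul_inv_cancel₀ h1) ?_ ?_
    · field_simp
      linear_combination key
    · field_simp
      ring
  · refine RX_mul _ _ _ _ _ _ (inv_mul_cancel₀ h1) ?_ ?_
    · field_simp
      linear_combination key
    · field_simp
      ring

end Tor
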