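import Pool.Agent.Tor.Alg.Cubic
import Pool.Agent.Tor.Alg.YBE

set_option autoImplicit false

/-! The trigonometric family `T(s)`, its Hermiticity, commutation, cubic relation, fusion. -/

namespace Tor

open Matrix Complex

open scoped Real

/-- `sin (pi/6 - i s/3)` -/
noncomputable def fa (s : ℂ) : ℂ := Complex.sin (π / 6 - I * s / 3)

/-- `sin (pi/6 + i s/3)` -/
noncomputable def fb (s : ℂ) : ℂ := Complex.sin (π / 6 + I * s / 3)

/-- `cosh (s/3)` -/
noncomputable def fc (s : ℂ) : ℂ := Complex.cosh (s / 3)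

/-- `sin (pi/3)` -/
noncomputable def kc : ℂ := (Real.sqrt 3 / 2 : ℝ)

theorem kc_sq : kc * kc = 3 / 4 := by
  unfold kc
  rw [← Complex.ofReal_mul]
  have : Real.sqrt 3 / 2 * (Real.sqrt 3 / 2) = 3 / 4 := by
    have := Real.mul_self_sqrt (show (0 : ℝ) ≤ 3 by norm_num)
    nlinarith
  rw [this]
  norm_num

theorem sin_pi6 : Complex.sin ((π : ℂ) / 6) = 1 / 2 := by
  have := Real.sin_pi_div_six
  rw [show ((π : ℂ) / 6) = ((π / 6 : ℝ) : ℂ) by push_cast; ring, ← Complex.ofReal_sin, this]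
  norm_num

theorem cos_pi6 : Complex.cos ((π : ℂ) / 6) = kc := by
  have := Real.cos_pi_div_six
  rw [show ((π : ℂ) / 6) = ((π / 6 : ℝ) : ℂ) by push_cast; ring, ← Complex.ofReal_cos, this]
  rfl

/-- `sinh (s/3)` -/
noncomputable def fs (s : ℂ) : ℂ := Complex.sinh (s / 3)

theorem fa_eq (s : ℂ) : fa s = 1 / 2 * fc s - kc * (I * fs s) := by
  unfold fa fc fs
  rw [Complex.sin_sub, sin_pi6, cos_pi6, show I * s / 3 = (s / 3) * I by ring, Complex.cos_mul_I,
    Complex.sin_mul_I]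
  ring

theorem fb_eq (s : ℂ) : fb s = 1 / 2 * fc s + kc * (I * fs s) := by
  unfold fb fc fs
  rw [Complex.sin_add, sin_pi6, cos_pi6, show I * s / 3 = (s / 3) * I by ring, Complex.cos_mul_I,
    Complex.sin_mul_I]
  ring

theorem fa_add_fb (s : ℂ) : fa s + fb s = fc s := by
  rw [fa_eq, fb_eq]; ring

theorem fc_sq (s : ℂ) : fc s * fc s - fs s * fs s = 1 := by
  have := Complex.cosh_sq_sub_sinh_sq (s / 3)
  unfold fc fs
  linear_combination this

theorem kc_rel (s : ℂ) : kc * kc = fa s * fa s + fa s * fb s + fb s * fb s := by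
  rw [fa_eq, fb_eq]
  have h := fc_sq s
  have hk := kc_sq
  have hI := Complex.I_mul_I
  linear_combination (-(3 : ℂ) / 4) * h + (1 + fs s * fs s) * hk -
    (kc * kc * fs s * fs s) * hI

theorem pi3_aux (s : ℂ) : Complex.cosh (s / 3 - π * I / 3) = 1 / 2 * Complex.cosh (s / 3) -
    kc * (I * Complex.sinh (s / 3)) ∧ Complex.sinh (s / 3 - π * I / 3) =
      1 / 2 * Complex.sinh (s / 3) - kc * (I * Complex.cosh (s / 3)) := by
  have h1 : Complex.cosh ((π : ℂ) * I / 3) = 1 / 2 := by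
    rw [show (π : ℂ) * I / 3 = ((π / 3 : ℝ) : ℂ) * I by push_cast; ring, Complex.cosh_mul_I,
      ← Complex.ofReal_cos, Real.cos_pi_div_three]
    norm_num
  have h2 : Complex.sinh ((π : ℂ) * I / 3) = kc * I := by
    rw [show (π : ℂ) * I / 3 = ((π / 3 : ℝ) : ℂ) * I by push_cast; ring, Complex.sinh_mul_I,
      ← Complex.ofReal_sin, Real.sin_pi_div_three]
    rfl
  rw [Complex.cosh_sub, Complex.sinh_sub, h1, h2]
  constructor <;> ring

/-- shift by `- i pi` -/
theorem fc_sh (s : ℂ) : fc (s - π * I) = fa s := by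
  rw [fa_eq]
  unfold fc fs
  rw [show (s - π * I) / 3 = s / 3 - π * I / 3 by ring, (pi3_aux s).1]

theorem fs_sh (s : ℂ) : fs (s - π * I) = 1 / 2 * fs s - kc * (I * fc s) := by
  unfold fc fs
  rw [show (s - π * I) / 3 = s / 3 - π * I / 3 by ring, (pi3_aux s).2]

theorem fa_sh (s : ℂ) : fa (s - π * I) = -fb s := by
  rw [fa_eq, fc_sh, fs_sh, fa_eq, fb_eq]
  linear_combination (-(fc s)) * kc_sq + (kc * kc * fc s) * Complex.I_mul_I

theorem fb_sh (s : ℂ) : fb (s - π * I) = fc s := by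
  have h1 := fa_add_fb (s - π * I)
  have h2 := fa_add_fb s
  rw [fa_sh, fc_sh] at h1
  linear_combination h1 + h2

theorem fa_sh2 (s : ℂ) : fa (s - 2 * π * I) = -fc s := by
  rw [show s - 2 * π * I = (s - π * I) - π * I by ring, fa_sh, fb_sh]

theorem fb_sh2 (s : ℂ) : fb (s - 2 * π * I) = fa s := by
  rw [show s - 2 * π * I = (s - π * I) - π * I by ring, fb_sh, fc_sh]

theorem fc_sh2 (s : ℂ) : fc (s - 2 * π * I) = -fb s := by
  rw [show s - 2 * π * I = (s - π * I) - π * I by ring, fc_sh, fa_sh]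

theorem fa_sh3 (s : ℂ) : fa (s - 3 * π * I) = -fa s := by
  rw [show s - 3 * π * I = (s - 2 * π * I) - π * I by ring, fa_sh, fb_sh2]

theorem fb_sh3 (s : ℂ) : fb (s - 3 * π * I) = -fb s := by
  rw [show s - 3 * π * I = (s - 2 * π * I) - π * I by ring, fb_sh, fc_sh2]

theorem fc_sh3 (s : ℂ) : fc (s - 3 * π * I) = -fc s := by
  rw [← fa_add_fb, fa_sh3, fb_sh3, ← fa_add_fb]; ring

/-- the family of transfer matrices; `w = e^{i phi}` is the twist -/
noncomputable def TT (N : ℕ) (w w' s : ℂ) : Matrix (Fin N → Bool) (Fin N → Bool) ℂ :=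
  T6 N (fa s) (fb s) kc w w'

theorem TT_sh (N : ℕ) (w w' s : ℂ) :
    TT N w w' (s - π * I) = T6 N (-fb s) (fa s + fb s) kc w w' := by
  unfold TT
  rw [fa_sh, fb_sh, fa_add_fb]

theorem TT_sh2 (N : ℕ) (w w' s : ℂ) :
    TT N w w' (s - 2 * π * I) = T6 N (-(fa s + fb s)) (fa s) kc w w' := by
  unfold TT
  rw [fa_sh2, fb_sh2, fa_add_fb]

theorem LW_neg (a b c : ℂ) (x y : Bool) : LW (-a) (-b) c x y = (-1 : ℂ) • LW a b (-c) x y := by
  cases x <;> cases y <;> ext i j <;> fin_cases i <;> fin_cases j <;> simp [LW]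

theorem T6_neg_neg (N : ℕ) (hN : Even N) (a b c w w' : ℂ) :
    T6 N (-a) (-b) c w w' = T6 N a b c w w' := by
  rw [← T6_neg N a b c]
  unfold T6
  have : LW (-a) (-b) c = fun x y => (-1 : ℂ) • LW a b (-c) x y := by
    funext x y; exact LW_neg a b c x y
  rw [this, trans_smul, hN.neg_one_pow, one_smul]

/-- period `3 pi i` -/
theorem TT_period (N : ℕ) (hN : Even N) (w w' s : ℂ) :
    TT N w w' (s - 3 * π * I) = TT N w w' s := by
  unfold TT
  rw [fa_sh3, fb_sh3, T6_neg_neg N hN]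

theorem TT_fusion (N : ℕ) (w w' s : ℂ) (hw : w * w' = 1) :
    TT N w w' s * TT N w w' (s - π * I) =
      (fa s * fc s) ^ N • 1 + fb s ^ N • T3 N (fa s) (fb s) kc w w' := by
  rw [TT_sh, TT, T6_fusion N _ _ _ _ _ (kc_rel s) hw, fa_add_fb]

theorem TT_cubic (N : ℕ) (hN : Even N) (w w' s : ℂ) (hw : w * w' = 1) :
    TT N w w' s * TT N w w' (s - π * I) * TT N w w' (s - 2 * π * I) =
      (fa s * fb s) ^ N • TT N w w' s + (fb s * fc s) ^ N • TT N w w' (s - π * I) +
        (fa s * fc s) ^ N • TT N w w' (s - 2 * π * I) +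
        ((w ^ 3 + w' ^ 3) * (fa s * fb s * fc s) ^ N) • 1 := by
  rw [TT_sh, TT_sh2, TT, T6_cubic N _ _ _ _ _ (kc_rel s) hw, fa_add_fb, hN.neg_pow, hN.neg_pow]

/-! ### Hermiticity -/

theorem conj_fa (s : ℂ) : (starRingEnd ℂ) (fa s) = fb ((starRingEnd ℂ) s) := by
  unfold fa fb
  rw [← Complex.sin_conj]
  congr 1
  have h6 : (starRingEnd ℂ) 6 = 6 := Complex.conj_ofNat _
  have h3 : (starRingEnd ℂ) 3 = 3 := Complex.conj_ofNat _
  simp [h6, h3]
  ring

theorem conj_fb (s : ℂ) : (starRingEnd ℂ) (fb s) = fa ((starRingEnd ℂ) s) := by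
  have := conj_fa ((starRingEnd ℂ) s)
  rw [Complex.conj_conj] at this
  rw [← this, Complex.conj_conj]

theorem conj_kc : (starRingEnd ℂ) kc = kc := by
  unfold kc
  exact Complex.conj_ofReal _

/-- the flip of the auxiliary spin -/
def flp : Matrix (Fin 2) (Fin 2) ℂ := !![0, 1; 1, 0]

theorem flp_mul : flp * flp = 1 := by
  ext i j
  fin_cases i <;> fin_cases j <;> simp [flp, Matrix.mul_apply]

theorem LW_conj (s : ℂ) (x y : Bool) :
    (LW (fa s) (fb s) kc y x).map (starRingEnd ℂ) * flp =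
      flp * LW (fa ((starRingEnd ℂ) s)) (fb ((starRingEnd ℂ) s)) kc x y := by
  cases x <;> cases y <;> ext i j <;> fin_cases i <;> fin_cases j <;>
    simp [LW, flp, Matrix.mul_apply, conj_fa, conj_fb, conj_kc]

theorem wprod_map {N : ℕ} : ∀ (A : Bool → Bool → Matrix (Fin 2) (Fin 2) ℂ) (x y : Fin N → Bool),
    (wprod A x y).map (starRingEnd ℂ) = wprod (fun x y => (A x y).map (starRingEnd ℂ)) x y := by
  induction N with
  | zero =>
    intro A x y
    simp [wprod, Matrix.map_one]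
  | succ N ih =>
    intro A x y
    have := ih A (fun i => x i.succ) (fun i => y i.succ)
    unfold wprod at this ⊢
    rw [List.ofFn_succ, List.prod_cons, Matrix.map_mul, this, List.ofFn_succ, List.prod_cons]

theorem wprod_swap {N : ℕ} (A : Bool → Bool → Matrix (Fin 2) (Fin 2) ℂ) (x y : Fin N → Bool) :
    wprod A y x = wprod (fun x y => A y x) x y := rfl

theorem TT_adj (N : ℕ) (w w' s : ℂ) (hw : (starRingEnd ℂ) w = w') :
    (TT N w w' s)ᴴ = TT N w w' ((starRingEnd ℂ) s) := by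
  have hw2 : (starRingEnd ℂ) w' = w := by rw [← hw]; simp
  ext x y
  rw [Matrix.conjTranspose_apply]
  unfold TT T6
  rw [trans_apply, trans_apply]
  have h1 : star (trace (tw w w' * wprod (LW (fa s) (fb s) kc) y x)) =
      trace ((tw w w' * wprod (LW (fa s) (fb s) kc) y x).map (starRingEnd ℂ)) := by
    rw [Matrix.trace, Matrix.trace, star_sum]
    rfl
  rw [h1, Matrix.map_mul, wprod_map, wprod_swap]
  have h2 := wprod_conj (fun x y => (LW (fa s) (fb s) kc y x).map (starRingEnd ℂ))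
    (LW (fa ((starRingEnd ℂ) s)) (fb ((starRingEnd ℂ) s)) kc) flp (LW_conj s) x y
  have h3 : (tw w w').map (starRingEnd ℂ) * flp = flp * tw w w' := by
    ext i j
    fin_cases i <;> fin_cases j <;> simp [tw, flp, Matrix.mul_apply, hw, hw2]
  have h4 : (tw w w').map (starRingEnd ℂ) *
      wprod (fun x y => (LW (fa s) (fb s) kc y x).map (starRingEnd ℂ)) x y * flp =
      flp * (tw w w' * wprod (LW (fa ((starRingEnd ℂ) s)) (fb ((starRingEnd ℂ) s)) kc) x y) := by
    rw [Matrix.mul_assoc, h2, ← Matrix.mul_assoc, h3, Matrix.mul_assoc]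
  calc trace ((tw w w').map (starRingEnd ℂ) *
      wprod (fun x y => (LW (fa s) (fb s) kc y x).map (starRingEnd ℂ)) x y)
      = trace ((tw w w').map (starRingEnd ℂ) *
        wprod (fun x y => (LW (fa s) (fb s) kc y x).map (starRingEnd ℂ)) x y * flp * flp) := by
        rw [Matrix.mul_assoc _ flp, flp_mul, Matrix.mul_one]
    _ = trace (flp * (tw w w' * wprod (LW (fa ((starRingEnd ℂ) s)) (fb ((starRingEnd ℂ) s)) kc)
        x y) * flp) := by rw [h4]
    _ = _ := by rw [Matrix.trace_mul_comm, ← Matrix.mul_assoc, flp_mul, Matrix.one_mul]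

/-! ### Commutation on the real line -/

theorem r_eq (s t : ℂ) : fa s * fa t + fa s * fb t + fb s * fb t =
    kc * (kc * Complex.cosh ((s - t) / 3) - 1 / 2 * (I * Complex.sinh ((s - t) / 3))) := by
  rw [fa_eq, fa_eq, fb_eq, fb_eq, show (s - t) / 3 = s / 3 - t / 3 by ring, Complex.cosh_sub,
    Complex.sinh_sub]
  unfold fc fs
  linear_combination (-(Complex.cosh (s / 3) * Complex.cosh (t / 3))) * kc_sq +
    (kc * kc * Complex.sinh (s / 3) * Complex.sinh (t / 3)) * Complex.I_mul_I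

theorem r_ne (s t : ℝ) : fa s * fa t + fa s * fb t + fb s * fb t ≠ 0 := by
  rw [r_eq]
  have hk : kc ≠ 0 := by
    intro h
    have := kc_sq
    rw [h] at this
    norm_num at this
  refine mul_ne_zero hk ?_
  intro h
  have e1 : ((s : ℂ) - t) / 3 = (((s - t) / 3 : ℝ) : ℂ) := by push_cast; ring
  rw [e1, ← Complex.ofReal_cosh, ← Complex.ofReal_sinh] at h
  have h2 := congrArg Complex.re h
  unfold kc at h2
  have h3 := Real.cosh_pos ((s - t) / 3)
  have h4 : 0 < Real.sqrt 3 / 2 := by positivity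
  have h5 : ((Real.sqrt 3 / 2 : ℝ) : ℂ) * ((Real.cosh ((s - t) / 3) : ℝ) : ℂ) -
      1 / 2 * (I * ((Real.sinh ((s - t) / 3) : ℝ) : ℂ)) =
      ((Real.sqrt 3 / 2 * Real.cosh ((s - t) / 3) : ℝ) : ℂ) +
        ((-(1 / 2) * Real.sinh ((s - t) / 3) : ℝ) : ℂ) * I := by
    push_cast
    ring
  rw [h5, Complex.add_re, Complex.ofReal_re, Complex.re_ofReal_mul, Complex.I_re, mul_zero,
    add_zero, Complex.zero_re] at h2
  exact absurd h2 (mul_pos h4 h3).ne'

theorem TT_comm (N : ℕ) (w w' : ℂ) (s t : ℝ) :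
    TT N w w' s * TT N w w' t = TT N w w' t * TT N w w' s := by
  refine T6_comm N (fa t) (fb t) (fa s) (fb s) kc w w' (kc_rel _) (kc_rel _) (r_ne t s) ?_
  have := r_ne s t
  intro h
  apply this
  linear_combination h

end Tor
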